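import Mathlib

set_option autoImplicit false

/-!
# A failing Lefschetz map whose kernel has no complete intersection dual generator

In `K[x_0, x_1, x_2, x_3]`, `K` of characteristic zero, let `I = (x_0 x_1, x_2 x_3)`, a squarefree
monomial complete intersection containing no power of a variable, and
`J = I + (x_0 ^ 3, x_1 ^ 5, x_2 ^ 3, x_3 ^ 5)`. The algebra `A = K[x_0, x_1, x_2, x_3] / J` fails the
weak Lefschetz property in degree `3`, but no form `F` of degree `4` in the kernel of the transpose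
of `× L : A_3 → A_4` has `Ann(F) = I + (θ_1, ..., θ_r)` with a system of parameters `θ_1, ..., θ_r`
of `I`.
-/

open MvPolynomial

universe u

namespace Pool.Agent.Results.MP_2332b0_al.NoDualGenerator

section Definitions

variable (K : Type u) [Field K]

/-- The differential operator `∂ ^ m = ∂_0 ^ (m 0) ∂_1 ^ (m 1) ∂_2 ^ (m 2) ∂_3 ^ (m 3)`. -/
noncomputable def dmon (m : Fin 4 →₀ ℕ) (F : MvPolynomial (Fin 4) K) : MvPolynomial (Fin 4) K :=
  (pderiv 0)^[m 0] ((pderiv 1)^[m 1] ((pderiv 2)^[m 2] ((pderiv 3)^[m 3] F)))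

/-- The action `g ∘ F` of the polynomial `g = ∑ g_m x ^ m` on the polynomial `F` by
differentiation: `g ∘ F = ∑ g_m ∂ ^ m F`. -/
noncomputable def act (g F : MvPolynomial (Fin 4) K) : MvPolynomial (Fin 4) K :=
  ∑ m ∈ g.support, coeff m g • dmon K m F

/-- The ideal `I = (x_0 x_1, x_2 x_3)`. -/
noncomputable def I : Ideal (MvPolynomial (Fin 4) K) := Ideal.span {X 0 * X 1, X 2 * X 3}

/-- The ideal `J = I + (x_0 ^ 3, x_1 ^ 5, x_2 ^ 3, x_3 ^ 5)`. -/
noncomputable def J : Ideal (MvPolynomial (Fin 4) K) :=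
  I K ⊔ Ideal.span {X 0 ^ 3, X 1 ^ 5, X 2 ^ 3, X 3 ^ 5}

/-- The graded piece of degree `i` of the algebra `A = K[x_0, x_1, x_2, x_3] / J`. -/
noncomputable def piece (i : ℕ) : Submodule K (MvPolynomial (Fin 4) K ⧸ J K) :=
  (homogeneousSubmodule (Fin 4) K i).map (Ideal.Quotient.mkₐ K (J K)).toLinearMap

/-- The map `× L : A_i → A_(i+1)` is neither injective nor surjective. -/
def FailsWLP (L : MvPolynomial (Fin 4) K) (i : ℕ) : Prop :=
  ¬ Set.InjOn (fun x => Ideal.Quotient.mk (J K) L * x) (piece K i) ∧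
  ¬ Set.SurjOn (fun x => Ideal.Quotient.mk (J K) L * x) (piece K i) (piece K (i + 1))

/-- The kernel of the transpose of `× L : A_(t-1) → A_t`: the forms `F` of degree `t` annihilated
by `J` and by `L`. -/
def InKer (L : MvPolynomial (Fin 4) K) (t : ℕ) (F : MvPolynomial (Fin 4) K) : Prop :=
  F.IsHomogeneous t ∧ (∀ g ∈ J K, act K g F = 0) ∧ act K L F = 0

/-- `θ_1, ..., θ_r` is a system of parameters of `I`: the `θ_j` are homogeneous, `r` is the Krull
dimension of `K[x_0, x_1, x_2, x_3] / I`, and the quotient by `I + (θ_1, ..., θ_r)` is artinian and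
nonzero. -/
def IsSop {r : ℕ} (θ : Fin r → MvPolynomial (Fin 4) K) : Prop :=
  (∀ j, ∃ d, (θ j).IsHomogeneous d) ∧ ringKrullDim (MvPolynomial (Fin 4) K ⧸ I K) = r ∧
  IsArtinianRing (MvPolynomial (Fin 4) K ⧸ (I K ⊔ Ideal.span (Set.range θ))) ∧
  I K ⊔ Ideal.span (Set.range θ) ≠ ⊤

end Definitions

section Derivations

variable {K : Type u} [Field K]

lemma pd_comm (F : MvPolynomial (Fin 4) K) (i j : Fin 4) :
    pderiv i (pderiv j F) = pderiv j (pderiv i F) := by
  have h : ⁅(pderiv i : Derivation K (MvPolynomial (Fin 4) K) (MvPolynomial (Fin 4) K)),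
      (pderiv j : Derivation K (MvPolynomial (Fin 4) K) (MvPolynomial (Fin 4) K))⁆ = 0 := by
    apply MvPolynomial.derivation_ext
    intro k
    rw [Derivation.commutator_apply, pderiv_X, pderiv_X]
    have e1 : ∀ a b : Fin 4,
        pderiv a (Pi.single (M := fun _ => MvPolynomial (Fin 4) K) b 1 k) = 0 := by
      intro a b
      by_cases hb : k = b
      · subst hb; rw [Pi.single_eq_same]; exact Derivation.map_one_eq_zero _
      · rw [Pi.single_eq_of_ne hb, map_zero]
    rw [e1, e1, sub_zero]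
    rfl
  have := congrArg (fun D => D F) h
  simp only [Derivation.commutator_apply, Derivation.coe_zero, Pi.zero_apply] at this
  exact sub_eq_zero.1 this

/-- A form of positive degree whose partial derivatives vanish is zero. -/
lemma eq_zero_of_pd [CharZero K] {F : MvPolynomial (Fin 4) K} {n : ℕ} (hn : n ≠ 0)
    (hF : F.IsHomogeneous n) (h : ∀ i, pderiv i F = 0) : F = 0 := by
  have h1 := hF.sum_X_mul_pderiv
  simp only [h, mul_zero, Finset.sum_const_zero] at h1
  have h2 : (n : K) • F = 0 := by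
    rw [Nat.cast_smul_eq_nsmul]; exact h1.symm
  exact (smul_eq_zero.1 h2).resolve_left (Nat.cast_ne_zero.2 hn)

/-- A form of degree at least two whose second partial derivatives vanish is zero. -/
lemma eq_zero_of_pd2 [CharZero K] {F : MvPolynomial (Fin 4) K} {n : ℕ} (hn : 2 ≤ n)
    (hF : F.IsHomogeneous n) (h : ∀ i j, pderiv i (pderiv j F) = 0) : F = 0 :=
  eq_zero_of_pd (by omega) hF fun j =>
    eq_zero_of_pd (n := n - 1) (by omega) hF.pderiv fun i => h i j

end Derivations

section Action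

variable {K : Type u} [Field K]

lemma act_eq_sum {S : Finset (Fin 4 →₀ ℕ)} (g F : MvPolynomial (Fin 4) K) (hS : g.support ⊆ S) :
    act K g F = ∑ m ∈ S, coeff m g • dmon K m F := by
  refine Finset.sum_subset hS fun m _ hm => ?_
  rw [notMem_support_iff.1 hm, zero_smul]

lemma act_monomial (m : Fin 4 →₀ ℕ) (c : K) (F : MvPolynomial (Fin 4) K) :
    act K (monomial m c) F = c • dmon K m F := by
  classical
  by_cases hc : c = 0
  · subst hc
    simp [act]
  · rw [act, support_monomial, if_neg hc, Finset.sum_singleton, coeff_monomial, if_pos rfl]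

lemma act_add (g h F : MvPolynomial (Fin 4) K) : act K (g + h) F = act K g F + act K h F := by
  classical
  rw [act_eq_sum g F (Finset.subset_union_left (s₂ := h.support)),
    act_eq_sum h F (Finset.subset_union_right (s₁ := g.support)),
    act_eq_sum (g + h) F (support_add (p := g) (q := h)), ← Finset.sum_add_distrib]
  exact Finset.sum_congr rfl fun m _ => by rw [coeff_add, add_smul]

lemma act_X (i : Fin 4) (c : K) (F : MvPolynomial (Fin 4) K) :
    act K (C c * X i) F = c • pderiv i F := by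
  have : (C c * X i : MvPolynomial (Fin 4) K) = monomial (Finsupp.single i 1) c := by
    rw [C_mul_X_eq_monomial]
  rw [this, act_monomial]
  congr 1
  fin_cases i <;> simp [dmon]

end Action

section Kernel

variable {K : Type u} [Field K] [CharZero K]

/-- The equation `L ∘ G = 0`. -/
def Eq0 (c : Fin 4 → K) (G : MvPolynomial (Fin 4) K) : Prop :=
  c 0 • pderiv 0 G + c 1 • pderiv 1 G + c 2 • pderiv 2 G + c 3 • pderiv 3 G = 0

omit [CharZero K] in
lemma Eq0.pd {c : Fin 4 → K} {G : MvPolynomial (Fin 4) K} (h : Eq0 c G) (i : Fin 4) :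
    Eq0 c (pderiv i G) := by
  have h1 := congrArg (pderiv i) h
  simp only [map_add, Derivation.map_smul, map_zero] at h1
  unfold Eq0
  rw [pd_comm G 0 i, pd_comm G 1 i, pd_comm G 2 i, pd_comm G 3 i]
  exact h1

lemma stepA {c : Fin 4 → K} (hc : ∀ i, c i ≠ 0) {G : MvPolynomial (Fin 4) K} {n : ℕ}
    (hn : 2 ≤ n) (hG : G.IsHomogeneous n) (hE : Eq0 c G) (h0 : pderiv 0 G = 0)
    (h1 : pderiv 1 G = 0) (h23 : pderiv 2 (pderiv 3 G) = 0) : G = 0 := by
  have h32 : pderiv 3 (pderiv 2 G) = 0 := by rw [pd_comm]; exact h23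
  have e2 : pderiv 2 (pderiv 2 G) = 0 := by
    have := hE.pd 2
    unfold Eq0 at this
    rw [pd_comm G 0 2, pd_comm G 1 2, h0, h1, h32] at this
    simp only [map_zero, smul_zero, zero_add, add_zero] at this
    exact (smul_eq_zero.1 this).resolve_left (hc 2)
  have e3 : pderiv 3 (pderiv 3 G) = 0 := by
    have := hE.pd 3
    unfold Eq0 at this
    rw [pd_comm G 0 3, pd_comm G 1 3, h0, h1, h23] at this
    simp only [map_zero, smul_zero, zero_add, add_zero] at this
    exact (smul_eq_zero.1 this).resolve_left (hc 3)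
  refine eq_zero_of_pd2 hn hG fun i j => ?_
  fin_cases j
  · change pderiv i (pderiv 0 G) = 0
    rw [h0, map_zero]
  · change pderiv i (pderiv 1 G) = 0
    rw [h1, map_zero]
  · change pderiv i (pderiv 2 G) = 0
    fin_cases i
    · change pderiv 0 (pderiv 2 G) = 0
      rw [pd_comm, h0, map_zero]
    · change pderiv 1 (pderiv 2 G) = 0
      rw [pd_comm, h1, map_zero]
    · exact e2
    · exact h32
  · change pderiv i (pderiv 3 G) = 0
    fin_cases i
    · change pderiv 0 (pderiv 3 G) = 0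
      rw [pd_comm, h0, map_zero]
    · change pderiv 1 (pderiv 3 G) = 0
      rw [pd_comm, h1, map_zero]
    · exact h23
    · exact e3

lemma stepB {c : Fin 4 → K} (hc : ∀ i, c i ≠ 0) {G : MvPolynomial (Fin 4) K} {n : ℕ}
    (hn : 2 ≤ n) (hG : G.IsHomogeneous n) (hE : Eq0 c G) (h2 : pderiv 2 G = 0)
    (h3 : pderiv 3 G = 0) (h01 : pderiv 0 (pderiv 1 G) = 0) : G = 0 := by
  have h10 : pderiv 1 (pderiv 0 G) = 0 := by rw [pd_comm]; exact h01
  have e0 : pderiv 0 (pderiv 0 G) = 0 := by
    have := hE.pd 0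
    unfold Eq0 at this
    rw [pd_comm G 2 0, pd_comm G 3 0, h2, h3, h10] at this
    simp only [map_zero, smul_zero, add_zero] at this
    exact (smul_eq_zero.1 this).resolve_left (hc 0)
  have e1 : pderiv 1 (pderiv 1 G) = 0 := by
    have := hE.pd 1
    unfold Eq0 at this
    rw [pd_comm G 2 1, pd_comm G 3 1, h2, h3, h01] at this
    simp only [map_zero, smul_zero, zero_add, add_zero] at this
    exact (smul_eq_zero.1 this).resolve_left (hc 1)
  refine eq_zero_of_pd2 hn hG fun i j => ?_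
  fin_cases j
  · change pderiv i (pderiv 0 G) = 0
    fin_cases i
    · exact e0
    · exact h10
    · change pderiv 2 (pderiv 0 G) = 0
      rw [pd_comm, h2, map_zero]
    · change pderiv 3 (pderiv 0 G) = 0
      rw [pd_comm, h3, map_zero]
  · change pderiv i (pderiv 1 G) = 0
    fin_cases i
    · exact h01
    · exact e1
    · change pderiv 2 (pderiv 1 G) = 0
      rw [pd_comm, h2, map_zero]
    · change pderiv 3 (pderiv 1 G) = 0
      rw [pd_comm, h3, map_zero]
  · change pderiv i (pderiv 2 G) = 0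
    rw [h2, map_zero]
  · change pderiv i (pderiv 3 G) = 0
    rw [h3, map_zero]

/-- The elements of the kernel are forms in the variables `y_1`, `y_3` only. -/
lemma ker_pd {c : Fin 4 → K} (hc : ∀ i, c i ≠ 0) {F : MvPolynomial (Fin 4) K}
    (hF : InKer K (∑ i, C (c i) * X i) 4 F) :
    pderiv 0 F = 0 ∧ pderiv 2 F = 0 ∧ c 1 • pderiv 1 F + c 3 • pderiv 3 F = 0 := by
  obtain ⟨hF4, hJ, hL⟩ := hF
  have hL' : c 0 • pderiv 0 F + c 1 • pderiv 1 F + c 2 • pderiv 2 F + c 3 • pderiv 3 F = 0 := by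
    rw [Fin.sum_univ_four, act_add, act_add, act_add, act_X, act_X, act_X, act_X] at hL
    exact hL
  have mem1 : ∀ g ∈ ({X 0 * X 1, X 2 * X 3} : Set (MvPolynomial (Fin 4) K)), g ∈ J K :=
    fun g hg => Ideal.mem_sup_left (Ideal.subset_span hg)
  have mem2 : ∀ g ∈ ({X 0 ^ 3, X 1 ^ 5, X 2 ^ 3, X 3 ^ 5} : Set (MvPolynomial (Fin 4) K)),
      g ∈ J K := fun g hg => Ideal.mem_sup_right (Ideal.subset_span hg)
  have h01 : pderiv 0 (pderiv 1 F) = 0 := by
    have h1 := hJ _ (mem1 (X 0 * X 1) (by simp))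
    have h2 : (X 0 * X 1 : MvPolynomial (Fin 4) K) =
        monomial (Finsupp.single 0 1 + Finsupp.single 1 1) 1 := by
      rw [X, X, monomial_mul, one_mul]
    rw [h2, act_monomial, one_smul] at h1
    simpa [dmon] using h1
  have h23 : pderiv 2 (pderiv 3 F) = 0 := by
    have h1 := hJ _ (mem1 (X 2 * X 3) (by simp))
    have h2 : (X 2 * X 3 : MvPolynomial (Fin 4) K) =
        monomial (Finsupp.single 2 1 + Finsupp.single 3 1) 1 := by
      rw [X, X, monomial_mul, one_mul]
    rw [h2, act_monomial, one_smul] at h1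
    simpa [dmon] using h1
  have h000 : pderiv 0 (pderiv 0 (pderiv 0 F)) = 0 := by
    have h1 := hJ _ (mem2 (X 0 ^ 3) (by simp))
    rw [X_pow_eq_monomial, act_monomial, one_smul] at h1
    simpa [dmon] using h1
  have h222 : pderiv 2 (pderiv 2 (pderiv 2 F)) = 0 := by
    have h1 := hJ _ (mem2 (X 2 ^ 3) (by simp))
    rw [X_pow_eq_monomial, act_monomial, one_smul] at h1
    simpa [dmon] using h1
  have hE : Eq0 c F := hL'
  have h10 : pderiv 1 (pderiv 0 F) = 0 := by rw [pd_comm]; exact h01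
  have h32 : pderiv 3 (pderiv 2 F) = 0 := by rw [pd_comm]; exact h23
  have hd3 : ∀ i, (pderiv i F).IsHomogeneous 3 := fun i => hF4.pderiv
  have hd2 : ∀ i j, (pderiv i (pderiv j F)).IsHomogeneous 2 := fun i j => (hd3 j).pderiv
  have a1 : pderiv 0 (pderiv 0 F) = 0 := by
    refine stepA hc le_rfl (hd2 0 0) ((hE.pd 0).pd 0) h000 ?_ ?_
    · rw [pd_comm _ 1 0, h10, map_zero]
    · rw [pd_comm _ 3 0, pd_comm _ 2 0, pd_comm _ 3 0, pd_comm _ 2 0, h23, map_zero, map_zero]
  have a2 : pderiv 0 F = 0 := by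
    refine stepA hc (by norm_num) (hd3 0) (hE.pd 0) a1 h10 ?_
    rw [pd_comm _ 3 0, pd_comm _ 2 0, h23, map_zero]
  have b1 : pderiv 2 (pderiv 2 F) = 0 := by
    refine stepB hc le_rfl (hd2 2 2) ((hE.pd 2).pd 2) h222 ?_ ?_
    · rw [pd_comm _ 3 2, h32, map_zero]
    · rw [pd_comm _ 1 2, pd_comm _ 0 2, pd_comm _ 1 2, pd_comm _ 0 2, h01, map_zero, map_zero]
  have b2 : pderiv 2 F = 0 := by
    refine stepB hc (by norm_num) (hd3 2) (hE.pd 2) b1 h32 ?_
    rw [pd_comm _ 1 2, pd_comm _ 0 2, h01, map_zero]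
  refine ⟨a2, b2, ?_⟩
  rw [a2, b2] at hL'
  simpa using hL'

end Kernel

section Linear

variable {K : Type u} [Field K]

/-- The linear part of a polynomial. -/
noncomputable def lin : MvPolynomial (Fin 4) K →ₗ[K] (Fin 4 → K) where
  toFun g i := coeff (Finsupp.single i 1) g
  map_add' g h := by ext i; simp
  map_smul' a g := by ext i; simp

lemma lin_mul (a g : MvPolynomial (Fin 4) K) :
    lin (a * g) = constantCoeff a • lin g + constantCoeff g • lin a := by
  classical
  ext i
  simp only [lin, LinearMap.coe_mk, AddHom.coe_mk, Pi.add_apply, Pi.smul_apply, smul_eq_mul]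
  rw [coeff_mul, Finsupp.antidiagonal_single]
  simp [Finset.Nat.antidiagonal_succ, constantCoeff_eq]
  ring

lemma three_le {r : ℕ} {θ : Fin r → MvPolynomial (Fin 4) K}
    (hθ : ∀ j, ∃ d, (θ j).IsHomogeneous d)
    (hne : I K ⊔ Ideal.span (Set.range θ) ≠ ⊤) {a b : K} (ha : a ≠ 0)
    (h0 : (X 0 : MvPolynomial (Fin 4) K) ∈ I K ⊔ Ideal.span (Set.range θ))
    (h2 : (X 2 : MvPolynomial (Fin 4) K) ∈ I K ⊔ Ideal.span (Set.range θ))
    (h13 : (C a * X 1 + C b * X 3 : MvPolynomial (Fin 4) K) ∈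
      I K ⊔ Ideal.span (Set.range θ)) : 3 ≤ r := by
  classical
  have hθ0 : ∀ j, constantCoeff (θ j) = 0 := by
    intro j
    obtain ⟨d, hd⟩ := hθ j
    by_contra hcon
    have hd0 : d = 0 := by
      by_contra hd0
      apply hcon
      rw [constantCoeff_eq]
      exact hd.coeff_eq_zero (by simpa using Ne.symm hd0)
    subst hd0
    rw [← totalDegree_zero_iff_isHomogeneous, totalDegree_eq_zero_iff_eq_C] at hd
    apply hne
    rw [eq_top_iff]
    refine le_trans ?_ le_sup_right
    have hu : IsUnit (θ j) := by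
      rw [hd]
      refine (isUnit_iff_ne_zero.2 ?_).map C
      exact hcon
    have := Ideal.eq_top_of_isUnit_mem _ (Ideal.subset_span (Set.mem_range_self j)) hu
    rw [this]
  have key : ∀ g ∈ I K ⊔ Ideal.span (Set.range θ),
      constantCoeff g = 0 ∧ lin g ∈ Submodule.span K (Set.range fun j => lin (θ j)) := by
    intro g hg
    rw [I, ← Ideal.span_union] at hg
    induction hg using Submodule.span_induction with
    | mem x hx =>
      rcases hx with (rfl | rfl) | ⟨j, rfl⟩
      · refine ⟨by simp, ?_⟩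
        rw [lin_mul]
        simp
      · refine ⟨by simp, ?_⟩
        rw [lin_mul]
        simp
      · exact ⟨hθ0 j, Submodule.subset_span ⟨j, rfl⟩⟩
    | zero => exact ⟨map_zero _, by rw [map_zero]; exact Submodule.zero_mem _⟩
    | add x y _ _ hx hy =>
      exact ⟨by rw [map_add, hx.1, hy.1, add_zero], by
        rw [map_add]; exact Submodule.add_mem _ hx.2 hy.2⟩
    | smul a x _ hx =>
      rw [smul_eq_mul]
      refine ⟨by rw [map_mul, hx.1, mul_zero], ?_⟩
      rw [lin_mul, hx.1, zero_smul, add_zero]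
      exact Submodule.smul_mem _ _ hx.2
  have h4 : LinearIndependent K ![lin (X 0 : MvPolynomial (Fin 4) K), lin (X 2),
      lin (C a * X 1 + C b * X 3)] := by
    rw [Fintype.linearIndependent_iff]
    intro g hg
    rw [Fin.sum_univ_three] at hg
    have e0 := congrFun hg 0
    have e1 := congrFun hg 1
    have e2 := congrFun hg 2
    simp [lin, coeff_X, coeff_C_mul, Finsupp.single_left_inj] at e0 e1 e2
    intro i
    fin_cases i
    · exact e0
    · exact e2
    · exact e1.resolve_right ha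
  have h5 : Submodule.span K (Set.range ![lin (X 0 : MvPolynomial (Fin 4) K), lin (X 2),
      lin (C a * X 1 + C b * X 3)]) ≤ Submodule.span K (Set.range fun j => lin (θ j)) := by
    rw [Submodule.span_le]
    rintro _ ⟨i, rfl⟩
    fin_cases i
    · exact (key _ h0).2
    · exact (key _ h2).2
    · exact (key _ h13).2
  have h6 := Submodule.finrank_mono h5
  rw [finrank_span_eq_card h4, Fintype.card_fin] at h6
  have h7 := finrank_range_le_card (R := K) (fun j => lin (θ j))
  rw [Fintype.card_fin] at h7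
  exact h6.trans h7

end Linear

section Krull

variable {K : Type u} [Field K]

lemma krull_aux (f : Fin 2 → Fin 4) (a b : Fin 4)
    (hab : ∀ i : Fin 4, i = a ∨ i = b ∨ ∃ j, f j = i) :
    Order.krullDim (PrimeSpectrum.zeroLocus
      ((Ideal.span {X a, X b} : Ideal (MvPolynomial (Fin 4) K)) : Set (MvPolynomial (Fin 4) K)))
        ≤ 2 := by
  rw [← ringKrullDim_quotient]
  have h1 : ringKrullDim (MvPolynomial (Fin 2) K) = 2 := by
    rw [MvPolynomial.ringKrullDim_of_isNoetherianRing, ringKrullDim_eq_zero_of_field]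
    simp
  rw [← h1]
  let φ : MvPolynomial (Fin 2) K →ₐ[K]
      MvPolynomial (Fin 4) K ⧸ (Ideal.span {X a, X b} : Ideal (MvPolynomial (Fin 4) K)) :=
    aeval fun j => Ideal.Quotient.mk _ (X (f j))
  refine ringKrullDim_le_of_surjective φ.toRingHom ?_
  intro y
  obtain ⟨g, rfl⟩ := Ideal.Quotient.mk_surjective y
  change ∃ z, φ z = _
  induction g using MvPolynomial.induction_on with
  | C c => exact ⟨C c, by rw [← algebraMap_eq, AlgHom.commutes]; rfl⟩
  | add p q hp hq =>
    obtain ⟨z, hz⟩ := hp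
    obtain ⟨w, hw⟩ := hq
    exact ⟨z + w, by rw [map_add, map_add, hz, hw]⟩
  | mul_X p i hp =>
    obtain ⟨z, hz⟩ := hp
    rcases hab i with rfl | rfl | ⟨j, rfl⟩
    · refine ⟨0, ?_⟩
      rw [map_zero, map_mul]
      have : Ideal.Quotient.mk (Ideal.span {X i, X b} : Ideal (MvPolynomial (Fin 4) K)) (X i)
          = 0 := Ideal.Quotient.eq_zero_iff_mem.2 (Ideal.subset_span (by simp))
      rw [this, mul_zero]
    · refine ⟨0, ?_⟩
      rw [map_zero, map_mul]
      have : Ideal.Quotient.mk (Ideal.span {X a, X i} : Ideal (MvPolynomial (Fin 4) K)) (X i)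
          = 0 := Ideal.Quotient.eq_zero_iff_mem.2 (Ideal.subset_span (by simp))
      rw [this, mul_zero]
    · refine ⟨z * X j, ?_⟩
      rw [map_mul, map_mul, hz, aeval_X]

lemma krull_le : ringKrullDim (MvPolynomial (Fin 4) K ⧸ I K) ≤ 2 := by
  rw [ringKrullDim_quotient]
  refine iSup_le fun p => ?_
  obtain ⟨a, ha, ha'⟩ : ∃ a : Fin 4, (a = 0 ∨ a = 1) ∧ (X a : MvPolynomial (Fin 4) K) ∈
      p.head.1.asIdeal := by
    have h1 : (X 0 * X 1 : MvPolynomial (Fin 4) K) ∈ p.head.1.asIdeal :=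
      p.head.2 (Ideal.subset_span (by simp))
    rcases p.head.1.2.mem_or_mem h1 with h | h
    · exact ⟨0, Or.inl rfl, h⟩
    · exact ⟨1, Or.inr rfl, h⟩
  obtain ⟨b, hb, hb'⟩ : ∃ b : Fin 4, (b = 2 ∨ b = 3) ∧ (X b : MvPolynomial (Fin 4) K) ∈
      p.head.1.asIdeal := by
    have h1 : (X 2 * X 3 : MvPolynomial (Fin 4) K) ∈ p.head.1.asIdeal :=
      p.head.2 (Ideal.subset_span (by simp))
    rcases p.head.1.2.mem_or_mem h1 with h | h
    · exact ⟨2, Or.inl rfl, h⟩
    · exact ⟨3, Or.inr rfl, h⟩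
  have hmem : ∀ i, (p i).1 ∈ PrimeSpectrum.zeroLocus
      ((Ideal.span {X a, X b} : Ideal (MvPolynomial (Fin 4) K)) :
        Set (MvPolynomial (Fin 4) K)) := by
    intro i
    have hle : p.head.1.asIdeal ≤ (p i).1.asIdeal := p.head_le i
    rw [PrimeSpectrum.mem_zeroLocus, SetLike.coe_subset_coe, Ideal.span_le]
    rintro _ (rfl | rfl)
    · exact hle ha'
    · exact hle hb'
  let q : LTSeries (PrimeSpectrum.zeroLocus
      ((Ideal.span {X a, X b} : Ideal (MvPolynomial (Fin 4) K)) :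
        Set (MvPolynomial (Fin 4) K))) :=
    { length := p.length
      toFun := fun i => ⟨(p i).1, hmem i⟩
      step := fun i => p.step i }
  have h1 : (q.length : WithBot ℕ∞) ≤ _ := Order.LTSeries.length_le_krullDim q
  refine le_trans h1 ?_
  rcases ha with rfl | rfl <;> rcases hb with rfl | rfl
  · exact krull_aux ![1, 3] 0 2 (by decide)
  · exact krull_aux ![1, 2] 0 3 (by decide)
  · exact krull_aux ![0, 3] 1 2 (by decide)
  · exact krull_aux ![0, 2] 1 3 (by decide)

end Krull

section Fail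

variable {K : Type u} [Field K]

/-- The exponents of the generators of `J`. -/
def expo : Set (Fin 4 →₀ ℕ) :=
  {Finsupp.single 0 1 + Finsupp.single 1 1, Finsupp.single 2 1 + Finsupp.single 3 1,
    Finsupp.single 0 3, Finsupp.single 1 5, Finsupp.single 2 3, Finsupp.single 3 5}

lemma J_eq : J K = Ideal.span ((fun s => monomial s (1 : K)) '' expo) := by
  have e : ∀ i j : Fin 4, (monomial (Finsupp.single i 1 + Finsupp.single j 1) 1 :
      MvPolynomial (Fin 4) K) = X i * X j := by
    intro i j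
    rw [X, X, monomial_mul, one_mul]
  rw [J, I, ← Ideal.span_union, expo, Set.insert_union, Set.singleton_union]
  simp only [Set.image_insert_eq, Set.image_singleton, e, ← X_pow_eq_monomial]

lemma mem_J_iff (g : MvPolynomial (Fin 4) K) :
    g ∈ J K ↔ ∀ m ∈ g.support, (1 ≤ m 0 ∧ 1 ≤ m 1) ∨ (1 ≤ m 2 ∧ 1 ≤ m 3) ∨ 3 ≤ m 0 ∨ 5 ≤ m 1 ∨
      3 ≤ m 2 ∨ 5 ≤ m 3 := by
  rw [J_eq, mem_ideal_span_monomial_image]
  refine forall₂_congr fun m _ => ?_
  simp only [expo, Set.mem_insert_iff, Set.mem_singleton_iff, exists_eq_or_imp,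
    exists_eq_left]
  have e1 : ∀ i k, Finsupp.single i k ≤ m ↔ k ≤ m i := by
    intro i k
    exact Finsupp.single_le_iff
  have e2 : ∀ i j : Fin 4, i ≠ j → (Finsupp.single i 1 + Finsupp.single j 1 ≤ m ↔
      (1 ≤ m i ∧ 1 ≤ m j)) := by
    intro i j hij
    constructor
    · intro h
      have h1 := h i
      have h2 := h j
      simp [hij, hij.symm] at h1 h2
      exact ⟨h1, h2⟩
    · rintro ⟨h1, h2⟩ l
      simp only [Finsupp.add_apply, Finsupp.single_apply]
      split_ifs with h3 h4 h4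
      · exact absurd (h3.trans h4.symm) hij
      · subst h3; simpa using h1
      · subst h4; simpa using h2
      · simp
  rw [e1, e1, e1, e1, e2 0 1 (by decide), e2 2 3 (by decide)]

/-- The form `x_0 x_2 (c_2 x_2 - c_0 x_0)`. -/
noncomputable def pp (c : Fin 4 → K) : MvPolynomial (Fin 4) K :=
  X 0 * X 2 * (C (c 2) * X 2 - C (c 0) * X 0)

lemma pp_homog (c : Fin 4 → K) : (pp c).IsHomogeneous 3 := by
  have h1 : (X 0 * X 2 : MvPolynomial (Fin 4) K).IsHomogeneous 2 :=
    (isHomogeneous_X K 0).mul (isHomogeneous_X K 2)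
  have h2 : (C (c 2) * X 2 - C (c 0) * X 0 : MvPolynomial (Fin 4) K).IsHomogeneous 1 := by
    have h3 : ∀ i, (C (c i) * X i : MvPolynomial (Fin 4) K).IsHomogeneous 1 := by
      intro i
      have := (isHomogeneous_C (Fin 4) (c i)).mul (isHomogeneous_X K i)
      simpa using this
    exact (h3 2).sub (h3 0)
  exact h1.mul h2

lemma pp_notMem {c : Fin 4 → K} (hc : ∀ i, c i ≠ 0) : pp c ∉ J K := by
  classical
  rw [mem_J_iff]
  intro h
  have h1 := h (Finsupp.single 0 1 + Finsupp.single 2 2) (by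
    rw [mem_support_iff]
    have e : pp c = monomial (Finsupp.single 0 1 + Finsupp.single 2 2) (c 2) -
        monomial (Finsupp.single 0 2 + Finsupp.single 2 1) (c 0) := by
      rw [pp, monomial_eq, monomial_eq]
      simp [Finsupp.prod_add_index', pow_add, Finsupp.prod_single_index]
      ring
    rw [e, coeff_sub, coeff_monomial, coeff_monomial, if_pos rfl, if_neg, sub_zero]
    · exact hc 2
    · intro heq
      have := DFunLike.congr_fun heq 0
      simp at this)
  simp at h1

lemma mul_pp_mem (c : Fin 4 → K) : (∑ i, C (c i) * X i) * pp c ∈ J K := by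
  have mem1 : ∀ g ∈ ({X 0 * X 1, X 2 * X 3} : Set (MvPolynomial (Fin 4) K)), g ∈ J K :=
    fun g hg => Ideal.mem_sup_left (Ideal.subset_span hg)
  have mem2 : ∀ g ∈ ({X 0 ^ 3, X 1 ^ 5, X 2 ^ 3, X 3 ^ 5} : Set (MvPolynomial (Fin 4) K)),
      g ∈ J K := fun g hg => Ideal.mem_sup_right (Ideal.subset_span hg)
  have e : (∑ i, C (c i) * X i) * pp c =
      C (c 1) * X 2 * (C (c 2) * X 2 - C (c 0) * X 0) * (X 0 * X 1) +
      C (c 3) * X 0 * (C (c 2) * X 2 - C (c 0) * X 0) * (X 2 * X 3) +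
      C (c 2) * C (c 2) * X 0 * X 2 ^ 3 - C (c 0) * C (c 0) * X 2 * X 0 ^ 3 := by
    rw [Fin.sum_univ_four, pp]
    ring
  rw [e]
  refine Ideal.sub_mem _ (Ideal.add_mem _ (Ideal.add_mem _ ?_ ?_) ?_) ?_
  · exact Ideal.mul_mem_left _ _ (mem1 _ (by simp))
  · exact Ideal.mul_mem_left _ _ (mem1 _ (by simp))
  · exact Ideal.mul_mem_left _ _ (mem2 _ (by simp))
  · exact Ideal.mul_mem_left _ _ (mem2 _ (by simp))

/-- A form of degree four in `J` vanishes at the points `(0, a, 0, b)`. -/
lemma eval_eq_zero {g : MvPolynomial (Fin 4) K} (hg : g.IsHomogeneous 4) (hJ : g ∈ J K) (a b : K) :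
    eval ![0, a, 0, b] g = 0 := by
  rw [mem_J_iff] at hJ
  rw [eval_eq]
  refine Finset.sum_eq_zero fun m hm => ?_
  have h1 := hJ m hm
  have h2 : m.degree = 4 := by
    by_contra hcon
    exact (mem_support_iff.1 hm) (hg.coeff_eq_zero hcon)
  have h3 : m.degree = m 0 + m 1 + m 2 + m 3 := by
    rw [Finsupp.degree_eq_sum, Fin.sum_univ_four]
  have h4 : m 0 ≠ 0 ∨ m 2 ≠ 0 := by omega
  have h5 : ∏ i ∈ m.support, (![0, a, 0, b] : Fin 4 → K) i ^ m i = 0 := by
    rcases h4 with h4 | h4
    · exact Finset.prod_eq_zero (Finsupp.mem_support_iff.2 h4) (by simp [h4])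
    · exact Finset.prod_eq_zero (Finsupp.mem_support_iff.2 h4) (by simp [h4])
  rw [h5, mul_zero]

lemma fails {c : Fin 4 → K} (hc : ∀ i, c i ≠ 0) : FailsWLP K (∑ i, C (c i) * X i) 3 := by
  constructor
  · intro hinj
    have h1 : Ideal.Quotient.mk (J K) (pp c) ∈ piece K 3 := ⟨pp c, pp_homog c, rfl⟩
    have h2 := hinj h1 (Submodule.zero_mem _) (by
      change Ideal.Quotient.mk (J K) _ * Ideal.Quotient.mk (J K) _ =
        Ideal.Quotient.mk (J K) _ * 0
      rw [mul_zero, ← map_mul, Ideal.Quotient.eq_zero_iff_mem]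
      exact mul_pp_mem c)
    rw [Ideal.Quotient.eq_zero_iff_mem] at h2
    exact pp_notMem hc h2
  · intro hsurj
    have h1 : Ideal.Quotient.mk (J K) (X 3 ^ 4) ∈ piece K (3 + 1) :=
      ⟨X 3 ^ 4, isHomogeneous_X_pow 3 4, rfl⟩
    obtain ⟨_, ⟨p, hp, rfl⟩, h2⟩ := hsurj h1
    change Ideal.Quotient.mk (J K) _ * Ideal.Quotient.mk (J K) p = _ at h2
    rw [← map_mul, Ideal.Quotient.eq] at h2
    have h3 : ((∑ i, C (c i) * X i) * p - X 3 ^ 4 : MvPolynomial (Fin 4) K).IsHomogeneous 4 := by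
      refine IsHomogeneous.sub ?_ (isHomogeneous_X_pow 3 4)
      have h4 : (∑ i, C (c i) * X i : MvPolynomial (Fin 4) K).IsHomogeneous 1 := by
        refine IsHomogeneous.sum _ _ _ fun i _ => ?_
        have := (isHomogeneous_C (Fin 4) (c i)).mul (isHomogeneous_X K i)
        simpa using this
      exact h4.mul hp
    have h5 := eval_eq_zero h3 h2 (c 3) (-c 1)
    rw [map_sub, map_mul, Fin.sum_univ_four] at h5
    simp at h5
    have h6 : c 1 ^ 4 = 0 := by linear_combination -h5
    exact hc 1 (pow_eq_zero_iff (by norm_num) |>.1 h6)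

end Fail

theorem result (K : Type u) [Field K] [CharZero K] (c : Fin 4 → K) (hc : ∀ i, c i ≠ 0) :
    FailsWLP K (∑ i, C (c i) * X i) 3 ∧
    ∀ F, InKer K (∑ i, C (c i) * X i) 4 F →
      ∀ (r : ℕ) (θ : Fin r → MvPolynomial (Fin 4) K), IsSop K θ →
        {g | act K g F = 0} ≠
          ((I K ⊔ Ideal.span (Set.range θ) : Ideal (MvPolynomial (Fin 4) K)) :
            Set (MvPolynomial (Fin 4) K)) := by
  refine ⟨fails hc, fun F hF r θ hθ heq => ?_⟩
  obtain ⟨h0, h2, h13⟩ := ker_pd hc hF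
  have hm : ∀ g, act K g F = 0 → g ∈ I K ⊔ Ideal.span (Set.range θ) := fun g hg => by
    rw [← SetLike.mem_coe, ← heq]
    exact hg
  have h3 : 3 ≤ r := by
    refine three_le hθ.1 hθ.2.2.2 (hc 1) (b := c 3) (hm _ ?_) (hm _ ?_) (hm _ ?_)
    · have := act_X 0 (1 : K) F
      rw [C_1, one_mul] at this
      rw [this, h0, smul_zero]
    · have := act_X 2 (1 : K) F
      rw [C_1, one_mul] at this
      rw [this, h2, smul_zero]
    · rw [act_add, act_X, act_X, h13]
  have h4 := krull_le (K := K)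
  rw [hθ.2.1] at h4
  have h5 : r ≤ 2 := by exact_mod_cast h4
  omega

end Pool.Agent.Results.MP_2332b0_al.NoDualGenerator
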